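import Mathlib

/-!
# Typical ranks of looped cycles

A semisimple graph on `Fin n` is given by its edge set `E : Set (Sym2 (Fin n))`; the diagonal
pairs `s(i, i)` are the loops.  We prove that the maximum typical rank of the looped cycle on
`n ≥ 3` vertices is `min n 4`, so it is never `5`.
-/

namespace Pool.Agent.Results.MP_541c26_co.LoopedCycleRank

open Finset

/-- `M` is a real symmetric matrix that agrees with the `E`-indexed data `m` on every edge and
loop of `E`. -/
def IsCompletion {n : ℕ} (E : Set (Sym2 (Fin n))) (m : E → ℝ)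
    (M : Matrix (Fin n) (Fin n) ℝ) : Prop :=
  M.IsSymm ∧ ∀ (i j : Fin n) (h : s(i, j) ∈ E), M i j = m ⟨s(i, j), h⟩

/-- The least rank of a completion of `m`. -/
noncomputable def minRank {n : ℕ} (E : Set (Sym2 (Fin n))) (m : E → ℝ) : ℕ :=
  sInf {r : ℕ | ∃ M : Matrix (Fin n) (Fin n) ℝ, IsCompletion E m M ∧ M.rank = r}

/-- `r` is a typical rank of `E`: the data with minimum completion rank `r` have nonempty
interior in `ℝ^E`. -/
def IsTypicalRank {n : ℕ} (E : Set (Sym2 (Fin n))) (r : ℕ) : Prop :=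
  (interior {m : E → ℝ | minRank E m = r}).Nonempty

/-- The looped cycle: the edges of the cycle graph on `Fin n` and a loop at every vertex. -/
def loopedCycle (n : ℕ) : Set (Sym2 (Fin n)) :=
  (SimpleGraph.cycleGraph n).edgeSet ∪ {e | e.IsDiag}

/-- Two vectors of the Minkowski plane with squared lengths `a`, `b` and sum `(K, 1)`. -/
lemma two_step (a b : ℝ) : ∃ K₀ : ℝ, ∀ K ≥ K₀, ∃ p₁ q₁ p₂ q₂ : ℝ,
    p₁ * q₁ = a ∧ p₂ * q₂ = b ∧ p₁ + p₂ = K ∧ q₁ + q₂ = 1 := by
  refine ⟨2 * |a + b| + 1, fun K hK => ?_⟩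
  have hK0 : 0 < K := by have := abs_nonneg (a + b); linarith
  have hd : 0 ≤ discrim K (b - a - K) a := by
    have h1 : a + b ≤ |a + b| := le_abs_self _
    have h2 : 0 ≤ K * (K - 2 * (a + b)) := mul_nonneg hK0.le (by linarith)
    rw [discrim]
    nlinarith [sq_nonneg (a - b)]
  obtain ⟨x, hx⟩ := exists_quadratic_eq_zero hK0.ne'
    (show ∃ s, discrim K (b - a - K) a = s * s from
      ⟨Real.sqrt _, (Real.mul_self_sqrt hd).symm⟩)
  refine ⟨K + a - b - K * x, x, b - a + K * x, 1 - x, ?_, ?_, ?_, ?_⟩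
  · linear_combination (-1 : ℝ) * hx
  · linear_combination (-1 : ℝ) * hx
  · ring
  · ring

/-- A polygonal path with `k + 2` prescribed squared lengths and sum `(K, 1)`. -/
lemma path (κ : ℕ → ℝ) (k : ℕ) : ∃ K₀ : ℝ, ∀ K ≥ K₀, ∃ p q : ℕ → ℝ,
    (∀ i < k + 2, p i * q i = κ i) ∧ ∑ i ∈ range (k + 2), p i = K ∧
      ∑ i ∈ range (k + 2), q i = 1 := by
  induction k with
  | zero =>
    obtain ⟨K₀, h⟩ := two_step (κ 0) (κ 1)
    refine ⟨K₀, fun K hK => ?_⟩
    obtain ⟨p₁, q₁, p₂, q₂, h1, h2, h3, h4⟩ := h K hK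
    refine ⟨fun i => if i = 0 then p₁ else p₂, fun i => if i = 0 then q₁ else q₂, ?_, ?_, ?_⟩
    · intro i hi
      interval_cases i <;> simp [h1, h2]
    · simp [sum_range_succ, h3]
    · simp [sum_range_succ, h4]
  | succ k ih =>
    obtain ⟨K₁, h⟩ := ih
    obtain ⟨p, q, hpq, hp, hq⟩ := h (max K₁ 1) (le_max_left _ _)
    set K' := max K₁ 1 with hK'
    have hK'0 : 0 < K' := lt_of_lt_of_le one_pos (le_max_right _ _)
    obtain ⟨K₀, h⟩ := two_step K' (κ (k + 2))
    refine ⟨K₀, fun K hK => ?_⟩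
    obtain ⟨p₁, q₁, p₂, q₂, h1, h2, h3, h4⟩ := h K hK
    have hq₁ : q₁ ≠ 0 := by rintro rfl; simp at h1; linarith
    refine ⟨fun i => if i < k + 2 then p i / q₁ else p₂,
      fun i => if i < k + 2 then q i * q₁ else q₂, ?_, ?_, ?_⟩
    · intro i hi
      by_cases h' : i < k + 2
      · simp only [h', if_true]
        rw [← hpq i h']; field_simp
      · have : i = k + 2 := by omega
        subst this
        simp [h2]
    · rw [show k + 1 + 2 = (k + 2) + 1 by ring, sum_range_succ,
        sum_congr rfl (g := fun i => p i / q₁) (fun i hi => by simp [mem_range.1 hi]),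
        ← sum_div, hp, ← h1, ← h3]
      simp [hq₁]
    · rw [show k + 1 + 2 = (k + 2) + 1 by ring, sum_range_succ,
        sum_congr rfl (g := fun i => q i * q₁) (fun i hi => by simp [mem_range.1 hi]),
        ← sum_mul, hq]
      simp [h4]

/-- A closed polygon in the Minkowski plane with `k + 4` prescribed squared lengths. -/
lemma polygon (κ : ℕ → ℝ) (k : ℕ) : ∃ p q : ℕ → ℝ,
    (∀ i < k + 4, p i * q i = κ i) ∧ ∑ i ∈ range (k + 4), p i = 0 ∧
      ∑ i ∈ range (k + 4), q i = 0 := by
  obtain ⟨K₁, h₁⟩ := path κ k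
  obtain ⟨K₂, h₂⟩ := two_step (κ (k + 2)) (κ (k + 3))
  obtain ⟨p, q, hpq, hp, hq⟩ := h₁ (max K₁ K₂) (le_max_left _ _)
  obtain ⟨p₁, q₁, p₂, q₂, h1, h2, h3, h4⟩ := h₂ (max K₁ K₂) (le_max_right _ _)
  refine ⟨fun i => if i < k + 2 then p i else if i = k + 2 then -p₁ else -p₂,
    fun i => if i < k + 2 then q i else if i = k + 2 then -q₁ else -q₂, ?_, ?_, ?_⟩
  · intro i hi
    by_cases h' : i < k + 2
    · simp [h', hpq i h']
    · by_cases h'' : i = k + 2
      · subst h''; simp [h1]
      · have : i = k + 3 := by omega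
        subst this; simp [h2]
  · rw [show k + 4 = (k + 2) + 1 + 1 by ring, sum_range_succ, sum_range_succ,
      sum_congr rfl (g := p) (fun i hi => by simp [mem_range.1 hi]), hp]
    simp; linarith
  · rw [show k + 4 = (k + 2) + 1 + 1 by ring, sum_range_succ, sum_range_succ,
      sum_congr rfl (g := q) (fun i hi => by simp [mem_range.1 hi]), hq]
    simp; linarith

lemma exists_completion {n : ℕ} (E : Set (Sym2 (Fin n))) (m : E → ℝ) :
    ∃ M, IsCompletion E m M := by
  classical
  refine ⟨Matrix.of fun i j => if h : s(i, j) ∈ E then m ⟨s(i, j), h⟩ else 0, ?_, ?_⟩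
  · ext i j
    simp only [Matrix.transpose_apply, Matrix.of_apply]
    simp only [Sym2.eq_swap (a := j) (b := i)]
  · intro i j h
    simp [h]

lemma loop_mem {n : ℕ} (i : Fin n) : s(i, i) ∈ loopedCycle n := Or.inr (by simp)

lemma succ_mem {n : ℕ} (i : Fin (n + 2)) : s(i, i + 1) ∈ loopedCycle (n + 2) :=
  Or.inl (by simp [SimpleGraph.cycleGraph_adj])

/-- Every data on a looped cycle with at least four vertices has a completion of rank at
most four. -/
lemma rank_le_four (k : ℕ) (m : loopedCycle (k + 4) → ℝ) :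
    ∃ M, IsCompletion (loopedCycle (k + 4)) m M ∧ M.rank ≤ 4 := by
  set D : Fin (k + 4) → ℝ := fun i => m ⟨s(i, i), loop_mem i⟩ with hD
  set a : Fin (k + 4) → ℝ := fun i => m ⟨s(i, i + 1), succ_mem (n := k + 2) i⟩ with ha
  obtain ⟨p, q, hpq, hp, hq⟩ := polygon
    (fun i => if h : i < k + 4 then (D ⟨i, h⟩ + D (⟨i, h⟩ + 1)) / 2 - a ⟨i, h⟩ else 0) k
  set c : Fin (k + 4) → ℝ := fun i => ∑ j ∈ range i.val, p j with hc
  set d : Fin (k + 4) → ℝ := fun i => ∑ j ∈ range i.val, q j with hd
  have step : ∀ (f : ℕ → ℝ), ∑ i ∈ range (k + 4), f i = 0 → ∀ i : Fin (k + 4),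
      ∑ j ∈ range (i + 1 : Fin (k + 4)).val, f j - ∑ j ∈ range i.val, f j = f i.val := by
    intro f hf i
    rw [Fin.val_add_one]
    split_ifs with h
    · subst h
      rw [show k + 4 = (k + 3) + 1 by ring, sum_range_succ] at hf
      simp only [Fin.val_last, range_zero, sum_empty]
      linarith
    · rw [sum_range_succ]; ring
  have key : ∀ i : Fin (k + 4),
      (D i + D (i + 1)) / 2 - (c i - c (i + 1)) * (d i - d (i + 1)) = a i := by
    intro i
    have h1 : c (i + 1) - c i = p i.val := step p hp i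
    have h2 : d (i + 1) - d i = q i.val := step q hq i
    have h3 := hpq i.val i.isLt
    simp only [i.isLt, dif_pos, Fin.eta] at h3
    have : (c i - c (i + 1)) * (d i - d (i + 1)) = p i.val * q i.val := by
      rw [← h1, ← h2]; ring
    rw [this, h3]; ring
  refine ⟨Matrix.of fun i j => (D i + D j) / 2 - (c i - c j) * (d i - d j), ⟨?_, ?_⟩, ?_⟩
  · ext i j
    simp only [Matrix.transpose_apply, Matrix.of_apply]
    ring
  · intro i j h
    simp only [Matrix.of_apply]
    rcases h with h | h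
    · rw [SimpleGraph.mem_edgeSet, SimpleGraph.cycleGraph_adj (n := k + 2)] at h
      rcases h with h | h
      · have : i = j + 1 := by rw [← h]; abel
        subst this
        have h' := key j
        simp only [Sym2.eq_swap (a := j + 1) (b := j)]
        change _ = a j
        rw [← h']; ring
      · have : j = i + 1 := by rw [← h]; abel
        subst this
        exact key i
    · have : i = j := by simpa using h
      subst this
      change _ = D i
      ring
  · have : (Matrix.of fun i j => (D i + D j) / 2 - (c i - c j) * (d i - d j)) =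
        (Matrix.of fun (i : Fin (k + 4)) (l : Fin 4) =>
          ![D i / 2 - c i * d i, 1, c i, d i] l) *
        (Matrix.of fun (l : Fin 4) (j : Fin (k + 4)) =>
          ![1, D j / 2 - c j * d j, d j, c j] l) := by
      ext i j
      simp [Matrix.mul_apply, Fin.sum_univ_four]
      ring
    rw [this]
    exact (Matrix.rank_mul_le_left _ _).trans (Matrix.rank_le_width _)

lemma minRank_le_rank {n : ℕ} (E : Set (Sym2 (Fin n))) (m : E → ℝ)
    (M : Matrix (Fin n) (Fin n) ℝ) (hM : IsCompletion E m M) : minRank E m ≤ M.rank :=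
  Nat.sInf_le (s := {r : ℕ | ∃ M : Matrix (Fin n) (Fin n) ℝ,
    IsCompletion E m M ∧ M.rank = r}) ⟨M, hM, rfl⟩

lemma quad_pos {a b c x y : ℝ} (ha : 1 < a) (hc : 1 < c) (hb : |b| < 1) :
    (0 ≤ a * x ^ 2 + 2 * b * x * y + c * y ^ 2) ∧
      (a * x ^ 2 + 2 * b * x * y + c * y ^ 2 ≤ 0 → x = 0 ∧ y = 0) := by
  rw [abs_lt] at hb
  have h1 : 0 ≤ (1 + b) * (x + y) ^ 2 := mul_nonneg (by linarith) (sq_nonneg _)
  have h2 : 0 ≤ (1 - b) * (x - y) ^ 2 := mul_nonneg (by linarith) (sq_nonneg _)
  have h3 : 0 ≤ (a - 1) * x ^ 2 := mul_nonneg (by linarith) (sq_nonneg _)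
  have h4 : 0 ≤ (c - 1) * y ^ 2 := mul_nonneg (by linarith) (sq_nonneg _)
  have h5 : a * x ^ 2 + 2 * b * x * y + c * y ^ 2 = (a - 1) * x ^ 2 + (c - 1) * y ^ 2 +
      ((1 + b) * (x + y) ^ 2 + (1 - b) * (x - y) ^ 2) / 2 := by ring
  refine ⟨by linarith, fun h => ⟨?_, ?_⟩⟩
  · have : (a - 1) * x ^ 2 = 0 := by linarith
    rcases mul_eq_zero.1 this with h | h
    · linarith
    · exact pow_eq_zero_iff two_ne_zero |>.1 h
  · have : (c - 1) * y ^ 2 = 0 := by linarith
    rcases mul_eq_zero.1 this with h | h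
    · linarith
    · exact pow_eq_zero_iff two_ne_zero |>.1 h

lemma minRank_le (n : ℕ) (hn : 3 ≤ n) (m : loopedCycle n → ℝ) :
    minRank (loopedCycle n) m ≤ min n 4 := by
  by_cases h4 : n ≤ 4
  · obtain ⟨M, hM⟩ := exists_completion _ m
    rw [min_eq_left h4]
    exact (minRank_le_rank _ m M hM).trans (Matrix.rank_le_width M)
  · obtain ⟨k, rfl⟩ : ∃ k, n = k + 4 := ⟨n - 4, by omega⟩
    obtain ⟨M, hM, hr⟩ := rank_le_four k m
    rw [min_eq_right (by omega)]
    exact (minRank_le_rank _ m M hM).trans hr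

lemma le_minRank {n : ℕ} (E : Set (Sym2 (Fin n))) (m : E → ℝ) (r : ℕ)
    (h : ∀ M, IsCompletion E m M → r ≤ M.rank) : r ≤ minRank E m := by
  obtain ⟨M, hM⟩ := exists_completion E m
  obtain ⟨N, hN, hr⟩ := Nat.sInf_mem (s := {r : ℕ | ∃ M : Matrix (Fin n) (Fin n) ℝ,
    IsCompletion E m M ∧ M.rank = r}) ⟨_, M, hM, rfl⟩
  rw [minRank, ← hr]
  exact h N hN

lemma le_rank_of_ker {n k : ℕ} (M : Matrix (Fin n) (Fin n) ℝ) (f : Fin k → Fin n)
    (h : ∀ x : Fin k → ℝ, (M.submatrix f f).mulVec x = 0 → x = 0) : k ≤ M.rank := by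
  have hu : IsUnit (M.submatrix f f) := by
    rw [← Matrix.mulVec_injective_iff_isUnit]
    intro x y hxy
    have := h (x - y) (by rw [Matrix.mulVec_sub, hxy, sub_self])
    exact sub_eq_zero.1 this
  have := Matrix.rank_of_isUnit _ hu
  rw [Fintype.card_fin] at this
  rw [← this]
  exact Matrix.rank_submatrix_le M f f

theorem result (n : ℕ) (hn : 3 ≤ n) :
    IsGreatest {r : ℕ | IsTypicalRank (loopedCycle n) r} (min n 4) := by
  constructor
  · obtain ⟨k, rfl⟩ : ∃ k, n = k + 3 := ⟨n - 3, by omega⟩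
    classical
    let σ : Sym2 (Fin (k + 3)) → ℝ := fun e => if e = s(0, 0) ∨ e = s(1, 1) then 1 else -1
    let U : Set (loopedCycle (k + 3) → ℝ) :=
      ⋂ e : loopedCycle (k + 3), {m | if e.1.IsDiag then 1 < σ e.1 * m e else |m e| < 1}
    have hU : IsOpen U := by
      refine isOpen_iInter_of_finite fun e => ?_
      split_ifs
      · exact isOpen_lt continuous_const (by fun_prop)
      · exact isOpen_lt (by fun_prop) continuous_const
    have hne : U.Nonempty := by
      refine ⟨fun e => if e.1.IsDiag then 2 * σ e.1 else 0, Set.mem_iInter.2 fun e => ?_⟩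
      simp only [Set.mem_ofPred_eq]
      split_ifs with h
      · simp only [σ]; split_ifs <;> norm_num
      · simp
    refine hne.mono (interior_maximal ?_ hU)
    intro m hm
    refine le_antisymm (minRank_le _ hn m) (le_minRank _ m _ fun M hM => ?_)
    have hdiag : ∀ i, 1 < σ s(i, i) * M i i := by
      intro i
      have := Set.mem_iInter.1 hm ⟨s(i, i), loop_mem i⟩
      rw [hM.2 i i (loop_mem i)]
      simpa using this
    have hoff : ∀ i, |M i (i + 1)| < 1 := by
      intro i
      have := Set.mem_iInter.1 hm ⟨s(i, i + 1), succ_mem (n := k + 1) i⟩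
      rw [hM.2 i (i + 1) (succ_mem (n := k + 1) i)]
      simpa using this
    have hs : ∀ i j, M j i = M i j := fun i j => hM.1.apply i j
    have h00 : 1 < M 0 0 := by simpa [σ] using hdiag 0
    have h11 : 1 < M 1 1 := by simpa [σ] using hdiag 1
    have h01 : |M 0 1| < 1 := by simpa using hoff 0
    have hneg : ∀ i : Fin (k + 3), 2 ≤ i.val → M i i < -1 := by
      intro i hi
      have h0 : i ≠ 0 := by rintro rfl; simp at hi
      have h1 : i ≠ 1 := by rintro rfl; simp at hi
      have := hdiag i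
      simp [σ, h0, h1] at this
      linarith
    rcases Nat.eq_zero_or_pos k with rfl | hk
    · refine le_rank_of_ker (k := 3) M id fun x hx => ?_
      have e0 := congrFun hx 0
      have e1 := congrFun hx 1
      have e2 := congrFun hx 2
      simp only [Matrix.mulVec, dotProduct, Fin.sum_univ_three, Matrix.submatrix_apply, id,
        Pi.zero_apply] at e0 e1 e2
      have h22 := hneg 2 (by simp)
      rw [hs 0 1] at e1
      rw [hs 0 2, hs 1 2] at e2
      have hq : M 0 0 * x 0 ^ 2 + 2 * M 0 1 * x 0 * x 1 + M 1 1 * x 1 ^ 2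
          + ((-M 2 2) * x 2 ^ 2 + 2 * 0 * x 2 * 0 + 2 * 0 ^ 2) = 0 := by
        linear_combination x 0 * e0 + x 1 * e1 - x 2 * e2
      obtain ⟨a1, a2⟩ := quad_pos (x := x 0) (y := x 1) h00 h11 h01
      obtain ⟨b1, b2⟩ := quad_pos (a := -M 2 2) (b := 0) (c := 2) (x := x 2) (y := 0)
        (by linarith) (by norm_num) (by simp)
      obtain ⟨c0, c1⟩ := a2 (by linarith)
      obtain ⟨c2, -⟩ := b2 (by linarith)
      ext i
      fin_cases i <;> simpa using ‹_›
    · obtain ⟨k, rfl⟩ : ∃ l, k = l + 1 := ⟨k - 1, by omega⟩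
      rw [min_eq_right (by omega)]
      let t : Fin (k + 1 + 3) := ⟨2, by omega⟩
      have ht : (t + 1).val = 3 := by
        rw [Fin.val_add_one_of_lt (by simp [t, Fin.lt_def])]
      refine le_rank_of_ker (k := 4) M ![0, 1, t, t + 1] fun x hx => ?_
      have e0 := congrFun hx 0
      have e1 := congrFun hx 1
      have e2 := congrFun hx 2
      have e3 := congrFun hx 3
      simp only [Matrix.mulVec, dotProduct, Fin.sum_univ_four, Matrix.submatrix_apply,
        Pi.zero_apply, Matrix.cons_val] at e0 e1 e2 e3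
      have h22 := hneg t (by simp [t])
      have h33 := hneg (t + 1) (by omega)
      have h23 := hoff t
      rw [hs 0 1] at e1
      rw [hs 0 t, hs 1 t] at e2
      rw [hs 0 (t + 1), hs 1 (t + 1), hs t (t + 1)] at e3
      have hq : M 0 0 * x 0 ^ 2 + 2 * M 0 1 * x 0 * x 1 + M 1 1 * x 1 ^ 2
          + ((-M t t) * x 2 ^ 2 + 2 * (-M t (t + 1)) * x 2 * x 3
            + (-M (t + 1) (t + 1)) * x 3 ^ 2) = 0 := by
        linear_combination x 0 * e0 + x 1 * e1 - x 2 * e2 - x 3 * e3
      obtain ⟨a1, a2⟩ := quad_pos (x := x 0) (y := x 1) h00 h11 h01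
      obtain ⟨b1, b2⟩ := quad_pos (a := -M t t) (b := -M t (t + 1)) (c := -M (t + 1) (t + 1))
        (x := x 2) (y := x 3) (by linarith) (by linarith) (by rwa [abs_neg])
      obtain ⟨c0, c1⟩ := a2 (by linarith)
      obtain ⟨c2, c3⟩ := b2 (by linarith)
      ext i
      fin_cases i <;> simpa using ‹_›
  · rintro r ⟨m, hm⟩
    have := interior_subset hm
    rw [← (show minRank _ m = r from this)]
    exact minRank_le n hn m

end Pool.Agent.Results.MP_541c26_co.LoopedCycleRank
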